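import Pool.Agent.H141R3.Heis

set_option autoImplicit false

namespace Pool.Agent.Results.MP_d3a611_gt.NoNonnegCayley

open Pool.Agent.H141R3.Ollivier

/-- a linear functional on the abelianisation -/
def lf (N : ℤ) (g : Heis) : ℤ := N * cx g + cy g

theorem lf_mul (N : ℤ) (g h : Heis) : lf N (g * h) = lf N g + lf N h := by
  simp only [lf, cx_mul, cy_mul]
  ring

theorem lf_inv (N : ℤ) (g : Heis) : lf N g⁻¹ = - lf N g := by
  simp only [lf, cx_inv, cy_inv]
  ring

/-- the commutator pairing with the vector `(u, v)` -/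
def qf (u v : ℤ) (g : Heis) : ℤ := cx g * v - cy g * u

theorem qf_mul (u v : ℤ) (g h : Heis) : qf u v (g * h) = qf u v g + qf u v h := by
  simp only [qf, cx_mul, cy_mul]
  ring

theorem qf_inv (u v : ℤ) (g : Heis) : qf u v g⁻¹ = - qf u v g := by
  simp only [qf, cx_inv, cy_inv]
  ring

/-- A large coefficient makes the functional injective on the projection of `S`. -/
theorem lf_inj (S : Finset Heis) {s t : Heis} (hs : s ∈ S) (ht : t ∈ S)
    (h : lf (1 + 2 * ∑ r ∈ S, |cy r|) s = lf (1 + 2 * ∑ r ∈ S, |cy r|) t) :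
    cx s = cx t ∧ cy s = cy t := by
  set B := ∑ r ∈ S, |cy r| with hB
  have h1 : |cy s| ≤ B := Finset.single_le_sum (f := fun r => |cy r|) (fun r _ => abs_nonneg _) hs
  have h2 : |cy t| ≤ B := Finset.single_le_sum (f := fun r => |cy r|) (fun r _ => abs_nonneg _) ht
  rw [abs_le] at h1 h2
  simp only [lf] at h
  have h3 : (1 + 2 * B) * (cx s - cx t) = cy t - cy s := by linarith
  have h4 : cx s = cx t := by
    by_contra hne
    rcases lt_or_gt_of_ne hne with hlt | hlt
    · have : (1 + 2 * B) * (cx s - cx t) ≤ (1 + 2 * B) * (-1) := by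
        apply mul_le_mul_of_nonneg_left
        · linarith
        · linarith
      linarith
    · have : (1 + 2 * B) * 1 ≤ (1 + 2 * B) * (cx s - cx t) := by
        apply mul_le_mul_of_nonneg_left
        · linarith
        · linarith
      linarith
  refine ⟨h4, ?_⟩
  rw [h4, sub_self, mul_zero] at h3
  linarith

theorem closure_zero {S : Finset Heis} (hgen : Subgroup.closure (S : Set Heis) = ⊤)
    {q : Heis → ℤ} (hmul : ∀ g h, q (g * h) = q g + q h) (hS : ∀ s ∈ S, q s = 0) (g : Heis) :
    q g = 0 := by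
  have h1 : q 1 = 0 := by
    have := hmul 1 1
    rw [mul_one] at this
    linarith
  have hg : g ∈ Subgroup.closure (S : Set Heis) := by rw [hgen]; trivial
  induction hg using Subgroup.closure_induction with
  | mem s hs => exact hS s hs
  | one => exact h1
  | mul g h _ _ ihg ihh => rw [hmul, ihg, ihh, add_zero]
  | inv g _ ih =>
    have := hmul g g⁻¹
    rw [mul_inv_cancel, h1, ih] at this
    linarith

/-- Coordinates along tight steps. -/
theorem steps_coord {S : Finset Heis} (hsymm : ∀ s ∈ S, s⁻¹ ∈ S) (h1 : (1 : Heis) ∉ S)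
    {N : ℤ} {M u v Z : ℤ}
    (hS : ∀ t ∈ S, lf N t = M → cx t = u ∧ cy t = v ∧ ze t ≤ Z) {k : ℕ} {a b : Heis}
    (h : Steps (fun g h => (cayley S).Adj g h ∧ (lf N h : ℝ) - (lf N g : ℝ) = (M : ℝ)) k a b) :
    qf u v b = qf u v a ∧ ze b ≤ ze a + k * (Z + qf u v a) := by
  induction h with
  | nil a => simp
  | @cons k a b c hab _ ih =>
    obtain ⟨hadj, hsl⟩ := hab
    rw [cayley_adj hsymm h1] at hadj
    have e1 : lf N b = lf N a + lf N (a⁻¹ * b) := by
      rw [← lf_mul, mul_inv_cancel_left]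
    have e2 : lf N (a⁻¹ * b) = M := by
      have : lf N b - lf N a = M := by exact_mod_cast hsl
      linarith
    obtain ⟨f1, f2, f3⟩ := hS _ hadj e2
    have e3 : b = a * (a⁻¹ * b) := by rw [mul_inv_cancel_left]
    have e4 : qf u v b = qf u v a := by
      rw [e3, qf_mul]
      have : qf u v (a⁻¹ * b) = 0 := by
        simp only [qf, f1, f2]
        ring
      rw [this, add_zero]
    have e5 : ze b ≤ ze a + (Z + qf u v a) := by
      rw [e3, ze_mul, f1, f2]
      simp only [qf]
      linarith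
    refine ⟨ih.1.trans e4, ih.2.trans ?_⟩
    rw [e4]
    push_cast
    linarith

theorem main (S : Finset Heis) (hsymm : ∀ s ∈ S, s⁻¹ ∈ S) (h1 : (1 : Heis) ∉ S)
    (hgen : Subgroup.closure (S : Set Heis) = ⊤)
    (hk : ∀ x y, (cayley S).Adj x y → 0 ≤ curvature (cayley S) x y) : False := by
  classical
  set N : ℤ := 1 + 2 * ∑ r ∈ S, |cy r| with hN
  -- nonempty
  have hne : S.Nonempty := by
    rw [Finset.nonempty_iff_ne_empty]
    rintro rfl
    rw [Finset.coe_empty, Subgroup.closure_empty] at hgen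
    obtain ⟨A, hA, -, -⟩ := exists_heis 1 0 0
    have : A ∈ (⊥ : Subgroup Heis) := by rw [hgen]; trivial
    rw [Subgroup.mem_bot] at this
    have h0 : cx (1 : Heis) = 0 := by
      have := cx_mul 1 1
      rw [mul_one] at this
      omega
    rw [this, h0] at hA
    omega
  obtain ⟨s₀, hs₀, hmax₀⟩ := Finset.exists_max_image S (lf N) hne
  set M := lf N s₀ with hM
  have hF : (S.filter fun t => lf N t = M).Nonempty := ⟨s₀, Finset.mem_filter.2 ⟨hs₀, rfl⟩⟩
  obtain ⟨s, hs', hmaxz⟩ := Finset.exists_max_image (S.filter fun t => lf N t = M) ze hF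
  obtain ⟨hs, hsM⟩ := Finset.mem_filter.1 hs'
  set u := cx s with hu
  set v := cy s with hv
  have hMpos : 0 < M := by
    by_contra hle
    push Not at hle
    have hz : ∀ t ∈ S, lf N t = 0 := by
      intro t ht
      have a1 := hmax₀ t ht
      have a2 := hmax₀ t⁻¹ (hsymm t ht)
      rw [lf_inv] at a2
      omega
    obtain ⟨A, hA1, hA2, -⟩ := exists_heis 0 1 0
    have := closure_zero hgen (lf_mul N) hz A
    rw [lf, hA1, hA2] at this
    omega
  have hSv : ∀ t ∈ S, lf N t = M → cx t = u ∧ cy t = v ∧ ze t ≤ ze s := by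
    intro t ht htM
    obtain ⟨a1, a2⟩ := lf_inj S ht hs (by rw [← hN, htM, hsM])
    exact ⟨a1, a2, hmaxz t (Finset.mem_filter.2 ⟨ht, htM⟩)⟩
  have hconn := cayley_connected hsymm h1 hgen
  have hadj : (cayley S).Adj 1 s := by
    rw [cayley_adj hsymm h1]
    simpa using hs
  have hnb : ∀ g : Heis, ((cayley S).neighborFinset g).Nonempty := by
    intro g
    refine ⟨g * s, (SimpleGraph.mem_neighborFinset _ _ _).2 ?_⟩
    rw [cayley_adj hsymm h1]
    simpa using hs
  have hcard : (0 : ℝ) < (S.card : ℝ) := by exact_mod_cast Finset.card_pos.2 hne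
  -- the optimal plan
  have hW : (W1 (cayley S) (stepLaw (cayley S) 1) (stepLaw (cayley S) s)).toReal ≤ 1 := by
    have := hk 1 s hadj
    rw [curvature, SimpleGraph.dist_eq_one_iff_adj.2 hadj] at this
    simp at this
    linarith
  obtain ⟨w, hw⟩ := exists_plan (cayley S) (hnb 1) (hnb s) hW
  have hslope : ∀ a b : Heis, (cayley S).Adj a b → (lf N b : ℝ) - (lf N a : ℝ) ≤ (M : ℝ) := by
    intro a b hab
    rw [cayley_adj hsymm h1] at hab
    have e1 : lf N b = lf N a + lf N (a⁻¹ * b) := by
      rw [← lf_mul, mul_inv_cancel_left]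
    have e2 := hmax₀ _ hab
    have e3 : lf N b - lf N a ≤ M := by linarith
    exact_mod_cast e3
  have hmean : ∀ g : Heis, (∑ a ∈ (cayley S).neighborFinset g, (lf N a : ℝ)) /
      ((cayley S).degree g : ℝ) = (lf N g : ℝ) + (∑ t ∈ S, (lf N t : ℝ)) / (S.card : ℝ) := by
    intro g
    rw [sum_neighbor hsymm h1, degree_cayley hsymm h1]
    have : ∑ t ∈ S, (lf N (g * t) : ℝ) = (S.card : ℝ) * (lf N g : ℝ) + ∑ t ∈ S, (lf N t : ℝ) := by
      have e : ∀ t ∈ S, (lf N (g * t) : ℝ) = (lf N g : ℝ) + (lf N t : ℝ) := by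
        intro t _
        rw [lf_mul]
        push_cast
        rfl
      rw [Finset.sum_congr rfl e, Finset.sum_add_distrib, Finset.sum_const, nsmul_eq_mul]
    rw [this]
    field_simp
  have htight := hw.slope hconn (f := fun g => (lf N g : ℝ)) (L := (M : ℝ))
    (m := (∑ t ∈ S, (lf N t : ℝ)) / (S.card : ℝ)) (by exact_mod_cast hMpos.le) hslope
    (hmean 1) (hmean s) (by
      have : lf N (1 : Heis) = 0 := by
        have := lf_mul N 1 1
        rw [mul_one] at this
        omega
      rw [this, hsM]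
      simp)
  -- comparison of the central coordinates
  have hpair : ∀ a b, w a b ≠ 0 → qf u v (s⁻¹ * b) = qf u v a ∧
      M * (ze (s⁻¹ * b) - ze a) ≤
        (ze s + qf u v a) * (lf N (s⁻¹ * b) - lf N a) + 2 * qf u v a * M := by
    intro a b hab
    have h2 := htight a b hab
    have h3 := dist_steps (cayley S) hslope hconn h2
    obtain ⟨h4, h5⟩ := steps_coord hsymm h1 hSv h3
    have hk' : (lf N b - lf N a : ℤ) = M * ((cayley S).dist a b : ℤ) := by
      have : (lf N b : ℝ) - (lf N a : ℝ) = (M : ℝ) * ((cayley S).dist a b : ℝ) := h2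
      exact_mod_cast this
    have e0 : b = s * (s⁻¹ * b) := by rw [mul_inv_cancel_left]
    have e1 : qf u v b = qf u v (s⁻¹ * b) := by
      conv_lhs => rw [e0, qf_mul]
      have : qf u v s = 0 := by
        simp only [qf, hu, hv]
        ring
      rw [this, zero_add]
    have e2 : ze b = ze s + ze (s⁻¹ * b) - qf u v (s⁻¹ * b) := by
      conv_lhs => rw [e0, ze_mul]
      simp only [qf, ← hu, ← hv]
      ring
    have e3 : lf N b = M + lf N (s⁻¹ * b) := by
      conv_lhs => rw [e0, lf_mul, hsM]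
    have e4 : qf u v (s⁻¹ * b) = qf u v a := by rw [← e1, h4]
    refine ⟨e4, ?_⟩
    have e5 : M * (((cayley S).dist a b : ℤ) - 1) = lf N (s⁻¹ * b) - lf N a := by
      rw [mul_sub, ← hk', e3]
      ring
    rw [← e5]
    rw [e2, e4] at h5
    nlinarith [mul_le_mul_of_nonneg_left h5 hMpos.le]
  -- nonnegativity of the commutator pairing on the generating set
  have hq : ∀ t₀ ∈ S, 0 ≤ qf u v t₀ := by
    intro t₀ ht₀
    by_contra hlt
    push Not at hlt
    set q₀ := qf u v t₀ with hq₀
    let Ψ : Heis → ℝ := fun t => if qf u v t = q₀ then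
      (M : ℝ) * (ze t : ℝ) - ((ze s : ℝ) + (q₀ : ℝ)) * (lf N t : ℝ) else 0
    have hΨ : ∀ a b, w a b ≠ 0 → Ψ (s⁻¹ * b) - Ψ a ≤ if qf u v a = q₀ then 2 * (q₀ : ℝ) * M
        else 0 := by
      intro a b hab
      obtain ⟨h2, h3⟩ := hpair a b hab
      simp only [Ψ]
      rw [h2]
      split_ifs with hc
      · rw [hc] at h3
        have h4 : (M : ℝ) * ((ze (s⁻¹ * b) : ℝ) - ze a) ≤
          ((ze s : ℝ) + q₀) * ((lf N (s⁻¹ * b) : ℝ) - lf N a) + 2 * q₀ * M := by
          exact_mod_cast h3
        linarith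
      · simp
    have hneg : 2 * (q₀ : ℝ) * M < 0 := by
      have h2 : (q₀ : ℝ) < 0 := by exact_mod_cast hlt
      have h3 : (0 : ℝ) < M := by exact_mod_cast hMpos
      nlinarith
    have hsum := hw.eq_zero_of_sum (F := fun a b => - (Ψ (s⁻¹ * b) - Ψ a)) (by
      intro a b hab
      have := hΨ a b hab
      split_ifs at this with hc
      · linarith
      · linarith) (by
      have l1 := hw.sum_left Ψ
      have l2 := hw.sum_right (fun b => Ψ (s⁻¹ * b))
      rw [sum_neighbor hsymm h1 1 Ψ, degree_cayley hsymm h1] at l1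
      rw [sum_neighbor hsymm h1 s (fun b => Ψ (s⁻¹ * b)), degree_cayley hsymm h1] at l2
      simp only [one_mul] at l1
      simp only [inv_mul_cancel_left] at l2
      have e : ∑ a ∈ (cayley S).neighborFinset 1, ∑ b ∈ (cayley S).neighborFinset s,
          w a b * (-(Ψ (s⁻¹ * b) - Ψ a)) =
          (∑ a ∈ (cayley S).neighborFinset 1, ∑ b ∈ (cayley S).neighborFinset s, w a b * Ψ a) -
          ∑ a ∈ (cayley S).neighborFinset 1, ∑ b ∈ (cayley S).neighborFinset s,
            w a b * Ψ (s⁻¹ * b) := by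
        rw [← Finset.sum_sub_distrib]
        refine Finset.sum_congr rfl fun a _ => ?_
        rw [← Finset.sum_sub_distrib]
        refine Finset.sum_congr rfl fun b _ => ?_
        ring
      rw [e, l1, l2, sub_self])
    have hadj₀ : (cayley S).Adj 1 t₀ := by
      rw [cayley_adj hsymm h1]
      simpa using ht₀
    have hrow := hw.row t₀ hadj₀
    rw [degree_cayley hsymm h1] at hrow
    have hpos : (0 : ℝ) < 1 / (S.card : ℝ) := by positivity
    rw [← hrow] at hpos
    obtain ⟨b, -, hb⟩ := Finset.exists_ne_zero_of_sum_ne_zero hpos.ne'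
    have h2 := hsum t₀ b hb
    have h3 := hΨ t₀ b hb
    rw [if_pos rfl] at h3
    linarith
  have hq0 : ∀ t ∈ S, qf u v t = 0 := by
    intro t ht
    have a1 := hq t ht
    have a2 := hq t⁻¹ (hsymm t ht)
    rw [qf_inv] at a2
    omega
  have hqall := closure_zero hgen (qf_mul u v) hq0
  obtain ⟨A, hA1, hA2, -⟩ := exists_heis 1 0 0
  obtain ⟨B, hB1, hB2, -⟩ := exists_heis 0 1 0
  have hA := hqall A
  have hB := hqall B
  rw [qf, hA1, hA2] at hA
  rw [qf, hB1, hB2] at hB
  have hv0 : v = 0 := by linarith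
  have hu0 : u = 0 := by linarith
  have : lf N s = 0 := by
    rw [lf, ← hu, ← hv, hu0, hv0]
    ring
  omega

/-- For every finite symmetric generating set `S` of the discrete Heisenberg group (not containing
the identity), the Cayley graph of `S` has an edge of negative Ollivier-Ricci curvature. -/
theorem result (S : Finset Heis) (hsymm : ∀ s ∈ S, s⁻¹ ∈ S) (h1 : (1 : Heis) ∉ S)
    (hgen : Subgroup.closure (S : Set Heis) = ⊤) :
    ∃ x y : Heis, (cayley S).Adj x y ∧ curvature (cayley S) x y < 0 := by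
  by_contra hcon
  push Not at hcon
  exact main S hsymm h1 hgen hcon

end Pool.Agent.Results.MP_d3a611_gt.NoNonnegCayley
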